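import Mathlib
import Pool.Agent.R440.WZ

/-!
# Integrality of the normalised (10k+3) binomial sum

A WZ pair gives the closed form
`∑_{k<n} (10k+3) C(2k,k)² C(3k,k) 8^(n-1-k)
   = n (2n+1) C(2n,n) ∑_{k<n} (-1)^k t(n,k)`,
`t(n,k) = (3n)! (2n+2k)! / (2 (2n+1)! (n-k-1)! (n+k)! (n+2k+1)!)`,
and `t(n,k)` is an integer for `n ≥ 2` by Legendre's formula.
-/

set_option autoImplicit false

namespace Pool.Agent.Results.MP_1cf91b_nt.Integrality

open Finset Nat Pool.Agent.R440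

/-- first member of the WZ pair -/
noncomputable def F (n k : ℕ) : ℚ :=
  (-1) ^ k / 8 ^ n * ((2 * n + 2 * k)! : ℚ) * ((3 * n)! : ℚ) * rf ((n : ℤ) - k) * rf n ^ 2 *
    rf ((n : ℤ) + k) * rf ((n : ℤ) + 2 * k) * (10 * n + 2 * k + 3)

/-- second member of the WZ pair -/
noncomputable def G (n k : ℕ) : ℚ :=
  (-1) ^ k / 8 ^ n * (-4) * n * ((n : ℚ) - k) * ((2 * n + 2 * k)! : ℚ) * ((3 * n)! : ℚ) *
    rf ((n : ℤ) - k) * rf n ^ 2 * rf ((n : ℤ) + k) * rf ((n : ℤ) + 2 * k + 1)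

theorem wz (n k : ℕ) : F n (k + 1) - F n k = G (n + 1) k - G n k := by
  unfold F G
  have e1 : rf ((n : ℤ) - (k + 1 : ℕ)) = ((n : ℚ) - k) * ((n : ℚ) - k + 1) * rf ((n : ℤ) - k + 1) := by
    rw [rf_step, show (n : ℤ) - (k + 1 : ℕ) + 1 = (n : ℤ) - k by push_cast; ring, rf_step ((n : ℤ) - k)]
    push_cast; ring
  have e2 : rf ((n : ℤ) - k) = ((n : ℚ) - k + 1) * rf ((n : ℤ) - k + 1) := by
    rw [rf_step]; push_cast; rfl
  have e3 : rf (n : ℤ) = ((n : ℚ) + 1) * rf ((n : ℤ) + 1) := by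
    rw [rf_step]; push_cast; rfl
  have e4 : rf ((n : ℤ) + k) = ((n : ℚ) + k + 1) * rf ((n : ℤ) + k + 1) := by
    rw [rf_step]; push_cast; rfl
  have e5 : rf ((n : ℤ) + 2 * k) = ((n : ℚ) + 2 * k + 1) * ((n : ℚ) + 2 * k + 2) * rf ((n : ℤ) + 2 * k + 2) := by
    rw [rf_step, rf_step ((n : ℤ) + 2 * k + 1), show (n : ℤ) + 2 * k + 1 + 1 = (n : ℤ) + 2 * k + 2 by ring]
    push_cast; ring
  have e6 : rf ((n : ℤ) + 2 * k + 1) = ((n : ℚ) + 2 * k + 2) * rf ((n : ℤ) + 2 * k + 2) := by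
    rw [rf_step, show (n : ℤ) + 2 * k + 1 + 1 = (n : ℤ) + 2 * k + 2 by ring]
    push_cast; ring
  have e7 : rf ((n : ℤ) + (k + 1 : ℕ)) = rf ((n : ℤ) + k + 1) := by
    congr 1
  have e8 : rf ((n : ℤ) + 2 * (k + 1 : ℕ)) = rf ((n : ℤ) + 2 * k + 2) := by
    congr 1
  have e9 : rf (((n + 1 : ℕ) : ℤ) - k) = rf ((n : ℤ) - k + 1) := by
    congr 1; push_cast; ring
  have e10 : rf (((n + 1 : ℕ) : ℤ)) = rf ((n : ℤ) + 1) := by
    congr 1
  have e11 : rf (((n + 1 : ℕ) : ℤ) + k) = rf ((n : ℤ) + k + 1) := by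
    congr 1; push_cast; ring
  have e12 : rf (((n + 1 : ℕ) : ℤ) + 2 * k + 1) = rf ((n : ℤ) + 2 * k + 2) := by
    congr 1; push_cast; ring
  have f1 : ((2 * n + 2 * (k + 1))! : ℚ) = (2 * n + 2 * k + 2) * (2 * n + 2 * k + 1) * ((2 * n + 2 * k)! : ℚ) := by
    rw [show 2 * n + 2 * (k + 1) = 2 * n + 2 * k + 1 + 1 by ring, Nat.factorial_succ, Nat.factorial_succ]
    push_cast; ring
  have f2 : ((2 * (n + 1) + 2 * k)! : ℚ) = (2 * n + 2 * k + 2) * (2 * n + 2 * k + 1) * ((2 * n + 2 * k)! : ℚ) := by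
    rw [show 2 * (n + 1) + 2 * k = 2 * n + 2 * k + 1 + 1 by ring, Nat.factorial_succ, Nat.factorial_succ]
    push_cast; ring
  have f3 : ((3 * (n + 1))! : ℚ) = (3 * n + 3) * (3 * n + 2) * (3 * n + 1) * ((3 * n)! : ℚ) := by
    rw [show 3 * (n + 1) = 3 * n + 1 + 1 + 1 by ring, Nat.factorial_succ, Nat.factorial_succ, Nat.factorial_succ]
    push_cast; ring
  rw [e1, e7, e8, e9, e10, e11, e12, e6, e5, e4, e3, e2, f1, f2, f3]
  push_cast
  have h8 : (8 : ℚ) ^ n ≠ 0 := by positivity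
  field_simp
  ring

theorem F_vanish (n k : ℕ) (h : n < k) : F n k = 0 := by
  unfold F
  rw [rf_neg (by omega : (n : ℤ) - k < 0)]
  ring

theorem G_vanish (n k : ℕ) (h : n ≤ k) : G n k = 0 := by
  unfold G
  rcases h.lt_or_eq with h | h
  · rw [rf_neg (by omega : (n : ℤ) - k < 0)]
    ring
  · subst h
    ring

theorem sum_F (n : ℕ) : ∑ j ∈ range n, F j 0 = - ∑ k ∈ range n, G n k := by
  induction n with
  | zero => simp
  | succ n ih =>
    rw [sum_range_succ, ih]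
    have h1 : ∑ k ∈ range (n + 1), (F n (k + 1) - F n k) = F n (n + 1) - F n 0 :=
      Finset.sum_range_sub (F n) (n + 1)
    rw [F_vanish n (n + 1) (by omega)] at h1
    have h2 : ∑ k ∈ range (n + 1), (F n (k + 1) - F n k)
        = ∑ k ∈ range (n + 1), G (n + 1) k - ∑ k ∈ range (n + 1), G n k := by
      rw [← Finset.sum_sub_distrib]
      exact Finset.sum_congr rfl fun k _ => wz n k
    rw [sum_range_succ (fun k => G n k), G_vanish n n le_rfl] at h2
    linarith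

theorem floor_int (q a b x y : ℤ) (hq : 2 ≤ q) (hx0 : 0 ≤ x) (hx : x < q) (hy0 : 0 ≤ y)
    (hy : y < q) :
    (2 * (q * a + x) + 1) / q + ((q * a + x) - (q * b + y) - 1) / q
      + ((q * a + x) + (q * b + y)) / q + ((q * a + x) + 2 * (q * b + y) + 1) / q
    ≤ (3 * (q * a + x)) / q + (2 * (q * a + x) + 2 * (q * b + y)) / q := by
  have h0 : q ≠ 0 := by omega
  have hq0 : 0 < q := by omega
  rw [show 2 * (q * a + x) + 1 = (2 * x + 1) + q * (2 * a) by ring,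
    show (q * a + x) - (q * b + y) - 1 = (x - y - 1) + q * (a - b) by ring,
    show (q * a + x) + (q * b + y) = (x + y) + q * (a + b) by ring,
    show (q * a + x) + 2 * (q * b + y) + 1 = (x + 2 * y + 1) + q * (a + 2 * b) by ring,
    show 3 * (q * a + x) = 3 * x + q * (3 * a) by ring,
    show 2 * (q * a + x) + 2 * (q * b + y) = (2 * x + 2 * y) + q * (2 * a + 2 * b) by ring,
    Int.add_mul_ediv_left _ _ h0, Int.add_mul_ediv_left _ _ h0, Int.add_mul_ediv_left _ _ h0,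
    Int.add_mul_ediv_left _ _ h0, Int.add_mul_ediv_left _ _ h0, Int.add_mul_ediv_left _ _ h0]
  obtain ⟨l1, u1, c1, d1⟩ := fl_spec (2 * x + 1) q 0 1 hq0 (by linarith) (by linarith)
  obtain ⟨l2, u2, c2, d2⟩ := fl_spec (x - y - 1) q (-1) 0 hq0 (by linarith) (by linarith)
  obtain ⟨l3, u3, c3, d3⟩ := fl_spec (x + y) q 0 1 hq0 (by linarith) (by linarith)
  obtain ⟨l4, u4, c4, d4⟩ := fl_spec (x + 2 * y + 1) q 0 2 hq0 (by linarith) (by linarith)
  obtain ⟨l5, u5, c5, d5⟩ := fl_spec (3 * x) q 0 2 hq0 (by linarith) (by linarith)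
  obtain ⟨l6, u6, c6, d6⟩ := fl_spec (2 * x + 2 * y) q 0 3 hq0 (by linarith) (by linarith)
  generalize (2 * x + 1) / q = A at *
  generalize (x - y - 1) / q = B at *
  generalize (x + y) / q = C at *
  generalize (x + 2 * y + 1) / q = D at *
  generalize (3 * x) / q = E at *
  generalize (2 * x + 2 * y) / q = F at *
  interval_cases A <;> interval_cases B <;> interval_cases C <;> interval_cases D <;>
    interval_cases E <;> interval_cases F <;> omega

/-- the floor inequality behind the integrality -/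
theorem floor_ineq (n k q : ℕ) (hq : 2 ≤ q) (hk : k < n) :
    (2 * n + 1) / q + (n - k - 1) / q + (n + k) / q + (n + 2 * k + 1) / q
      ≤ (3 * n) / q + (2 * n + 2 * k) / q := by
  have h := floor_int q (n / q : ℕ) (k / q : ℕ) (n % q : ℕ) (k % q : ℕ) (by exact_mod_cast hq)
    (by positivity) (by exact_mod_cast Nat.mod_lt _ (by omega)) (by positivity)
    (by exact_mod_cast Nat.mod_lt _ (by omega))
  have hn : ((q : ℤ) * (n / q : ℕ) + (n % q : ℕ)) = n := by exact_mod_cast Nat.div_add_mod n q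
  have hkk : ((q : ℤ) * (k / q : ℕ) + (k % q : ℕ)) = k := by exact_mod_cast Nat.div_add_mod k q
  rw [hn, hkk] at h
  have e : ((n : ℤ) - k - 1) = ((n - k - 1 : ℕ) : ℤ) := by omega
  rw [e] at h
  exact_mod_cast h

/-- integrality of `2 t(n,k)` -/
theorem dvd_one (n k : ℕ) (hk : k < n) :
    (2 * n + 1)! * (n - k - 1)! * (n + k)! * (n + 2 * k + 1)! ∣ (3 * n)! * (2 * n + 2 * k)! := by
  have h := prod_fac_dvd [3 * n, 2 * n + 2 * k] [2 * n + 1, n - k - 1, n + k, n + 2 * k + 1] (by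
    intro q hq
    have := floor_ineq n k q hq hk
    simp only [List.map_cons, List.map_nil, List.sum_cons, List.sum_nil]
    omega)
  simp only [List.map_cons, List.map_nil, List.prod_cons, List.prod_nil, mul_one] at h
  convert h using 1
  ring

/-- the 2-adic valuation gains one -/
theorem v2_gain (n k : ℕ) (hn : 2 ≤ n) (hk : k < n) :
    ((2 * n + 1)! * (n - k - 1)! * (n + k)! * (n + 2 * k + 1)!).factorization 2 + 1
      ≤ ((3 * n)! * (2 * n + 2 * k)!).factorization 2 := by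
  obtain ⟨m, hm⟩ : ∃ m, m = n - k - 1 := ⟨_, rfl⟩
  have hc := Nat.choose_mul_factorial_mul_factorial (n := 3 * n) (k := n + 2 * k + 1) (by omega)
  rw [show 3 * n - (n + 2 * k + 1) = 2 * m + 1 by omega] at hc
  have hc2 := congrArg (fun x => Nat.factorization x 2) hc
  have hch : (3 * n).choose (n + 2 * k + 1) ≠ 0 := (Nat.choose_pos (by omega)).ne'
  rw [Nat.factorization_mul (mul_ne_zero hch (Nat.factorial_ne_zero _)) (Nat.factorial_ne_zero _),
    Nat.factorization_mul hch (Nat.factorial_ne_zero _), Finsupp.add_apply, Finsupp.add_apply,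
    v2_odd] at hc2
  rw [← hm, Nat.factorization_mul (by positivity) (Nat.factorial_ne_zero _),
    Nat.factorization_mul (by positivity) (Nat.factorial_ne_zero _),
    Nat.factorization_mul (by positivity) (Nat.factorial_ne_zero _),
    Nat.factorization_mul (Nat.factorial_ne_zero _) (Nat.factorial_ne_zero _),
    Finsupp.add_apply, Finsupp.add_apply, Finsupp.add_apply, Finsupp.add_apply, v2_odd,
    show 2 * n + 2 * k = 2 * (n + k) by ring, v2_even]
  rcases Nat.even_or_odd' n with ⟨r, hr | hr⟩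
  · -- `n` even : the binomial coefficient is even
    have h1 : 1 ≤ ((3 * n).choose (n + 2 * k + 1)).factorization 2 := by
      have hdiv : 2 ∣ (3 * n).choose (n + 2 * k + 1) := by
        have h3 := Nat.add_one_mul_choose_eq (3 * n - 1) (n + 2 * k)
        rw [show 3 * n - 1 + 1 = 3 * n by omega] at h3
        have h4 : 2 ∣ (3 * n).choose (n + 2 * k + 1) * (n + 2 * k + 1) := by
          rw [← h3]
          exact Dvd.dvd.mul_right (by omega) _
        rcases (Nat.prime_two.dvd_mul.mp h4) with h5 | h5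
        · exact h5
        · omega
      exact (Nat.prime_two.dvd_iff_one_le_factorization hch).mp hdiv
    have h2 := v2_lt (m := n) (by omega)
    omega
  · have h2 := v2_lt (m := r) (by omega)
    have h3 : (n !).factorization 2 = (r !).factorization 2 + r := by
      rw [hr, v2_odd]
    omega

/-- integrality of `t(n,k)` -/
theorem dvd_two (n k : ℕ) (hn : 2 ≤ n) (hk : k < n) :
    ∃ t : ℕ, (3 * n)! * (2 * n + 2 * k)!
      = 2 * ((2 * n + 1)! * (n - k - 1)! * (n + k)! * (n + 2 * k + 1)!) * t := by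
  obtain ⟨T, hT⟩ := dvd_one n k hk
  have hD : (2 * n + 1)! * (n - k - 1)! * (n + k)! * (n + 2 * k + 1)! ≠ 0 := by positivity
  have hT0 : T ≠ 0 := by
    rintro rfl
    rw [mul_zero] at hT
    have : (3 * n)! * (2 * n + 2 * k)! ≠ 0 := by positivity
    exact this hT
  have h := v2_gain n k hn hk
  rw [hT, Nat.factorization_mul hD hT0, Finsupp.add_apply] at h
  have h2 : 2 ∣ T := (Nat.prime_two.dvd_iff_one_le_factorization hT0).mpr (by omega)
  obtain ⟨t, rfl⟩ := h2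
  exact ⟨t, by rw [hT]; ring⟩

theorem G_eq (n k t : ℕ) (hk : k < n)
    (ht : (3 * n)! * (2 * n + 2 * k)!
      = 2 * ((2 * n + 1)! * (n - k - 1)! * (n + k)! * (n + 2 * k + 1)!) * t) :
    - (8 : ℚ) ^ n * G n k = 8 * ((n : ℚ) * (2 * n + 1) * ((2 * n).choose n : ℚ)) * ((-1) ^ k * t) := by
  obtain ⟨m, hm⟩ : ∃ m, m = n - k - 1 := ⟨_, rfl⟩
  have hn : n = k + 1 + m := by omega
  have h1 : rf ((n : ℤ) - k) = 1 / (((m : ℚ) + 1) * (m ! : ℚ)) := by
    rw [show (n : ℤ) - k = ((m + 1 : ℕ) : ℤ) by push_cast; omega, rf_nat, Nat.factorial_succ]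
    push_cast; rfl
  have h2 : rf (n : ℤ) = 1 / (n ! : ℚ) := rf_nat n
  have h3 : rf ((n : ℤ) + k) = 1 / ((n + k)! : ℚ) := by
    rw [show (n : ℤ) + k = ((n + k : ℕ) : ℤ) by push_cast; ring, rf_nat]
  have h4 : rf ((n : ℤ) + 2 * k + 1) = 1 / ((n + 2 * k + 1)! : ℚ) := by
    rw [show (n : ℤ) + 2 * k + 1 = ((n + 2 * k + 1 : ℕ) : ℤ) by push_cast; ring, rf_nat]
  have h5 : ((n : ℚ) - k) = (m : ℚ) + 1 := by
    rw [hn]; push_cast; ring
  have h6 : ((2 * n).choose n : ℚ) = ((2 * n)! : ℚ) / ((n ! : ℚ) * (n ! : ℚ)) := by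
    rw [Nat.cast_choose ℚ (by omega : n ≤ 2 * n)]
    rw [show 2 * n - n = n by omega]
  have ht' : ((3 * n)! : ℚ) * ((2 * n + 2 * k)! : ℚ)
      = 2 * (((2 * n + 1) * ((2 * n)! : ℚ)) * (m ! : ℚ) * ((n + k)! : ℚ) * ((n + 2 * k + 1)! : ℚ)) * t := by
    rw [← hm, Nat.factorial_succ (2 * n)] at ht
    exact_mod_cast ht
  have z1 : (m ! : ℚ) ≠ 0 := by positivity
  have z2 : (n ! : ℚ) ≠ 0 := by positivity
  have z3 : ((n + k)! : ℚ) ≠ 0 := by positivity
  have z4 : ((n + 2 * k + 1)! : ℚ) ≠ 0 := by positivity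
  have z5 : ((m : ℚ) + 1) ≠ 0 := by positivity
  have z6 : (8 : ℚ) ^ n ≠ 0 := by positivity
  unfold G
  rw [h1, h2, h3, h4, h5, h6]
  field_simp
  linear_combination (4 : ℚ) * n * ht'

theorem F_zero (n : ℕ) : (8 : ℚ) ^ n * F n 0
    = (10 * n + 3) * ((2 * n).choose n : ℚ) ^ 2 * ((3 * n).choose n : ℚ) := by
  have h2 : rf (n : ℤ) = 1 / (n ! : ℚ) := rf_nat n
  have h3 : rf ((n : ℤ) + (0 : ℕ)) = 1 / (n ! : ℚ) := by
    rw [← rf_nat n]; simp
  have h4 : rf ((n : ℤ) + 2 * (0 : ℕ)) = 1 / (n ! : ℚ) := by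
    rw [← rf_nat n]; simp
  have h1 : rf ((n : ℤ) - (0 : ℕ)) = 1 / (n ! : ℚ) := by
    rw [← rf_nat n]; simp
  have h6 : ((2 * n).choose n : ℚ) = ((2 * n)! : ℚ) / ((n ! : ℚ) * (n ! : ℚ)) := by
    rw [Nat.cast_choose ℚ (by omega : n ≤ 2 * n)]
    rw [show 2 * n - n = n by omega]
  have h7 : ((3 * n).choose n : ℚ) = ((3 * n)! : ℚ) / ((n ! : ℚ) * ((2 * n)! : ℚ)) := by
    rw [Nat.cast_choose ℚ (by omega : n ≤ 3 * n)]
    rw [show 3 * n - n = 2 * n by omega]
  unfold F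
  rw [h1, h2, h3, h4, h6, h7]
  have z2 : (n ! : ℚ) ≠ 0 := by positivity
  have z3 : ((2 * n)! : ℚ) ≠ 0 := by positivity
  have z6 : (8 : ℚ) ^ n ≠ 0 := by positivity
  simp only [Nat.cast_zero, mul_zero, add_zero, pow_zero]
  field_simp

/-- Q1: for `n ≥ 2` the sum is divisible by `n (2n+1) C(2n,n)`. -/
theorem result (n : ℕ) (hn : 2 ≤ n) :
    n * (2 * n + 1) * (2 * n).choose n ∣
      ∑ k ∈ range n, (10 * k + 3) * (2 * k).choose k ^ 2 * (3 * k).choose k * 8 ^ (n - 1 - k) := by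
  have hex : ∀ k ∈ range n, ∃ t : ℕ, (3 * n)! * (2 * n + 2 * k)!
      = 2 * ((2 * n + 1)! * (n - k - 1)! * (n + k)! * (n + 2 * k + 1)!) * t :=
    fun k hk => dvd_two n k hn (Finset.mem_range.mp hk)
  choose! t ht using hex
  have h8 : ((8 : ℚ) ^ (n - 1)) * 8 = 8 ^ n := by
    rw [← pow_succ]; congr 1; omega
  have hS : ((∑ k ∈ range n, (10 * k + 3) * (2 * k).choose k ^ 2 * (3 * k).choose k *
      8 ^ (n - 1 - k) : ℕ) : ℚ) = 8 ^ (n - 1) * ∑ j ∈ range n, F j 0 := by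
    push_cast
    rw [Finset.mul_sum]
    refine Finset.sum_congr rfl fun k hk => ?_
    have hk' := Finset.mem_range.mp hk
    rw [← F_zero k, show (8 : ℚ) ^ (n - 1) = 8 ^ (n - 1 - k) * 8 ^ k by
      rw [← pow_add]; congr 1; omega]
    ring
  have hR : (8 : ℚ) ^ (n - 1) * ∑ j ∈ range n, F j 0
      = (((n * (2 * n + 1) * (2 * n).choose n : ℕ) : ℤ) * ∑ k ∈ range n, (-1) ^ k * (t k : ℤ) : ℤ) := by
    rw [sum_F]
    push_cast
    rw [Finset.mul_sum, ← Finset.sum_neg_distrib, Finset.mul_sum]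
    refine Finset.sum_congr rfl fun k hk => ?_
    have := G_eq n k (t k) (Finset.mem_range.mp hk) (ht k hk)
    rw [← h8] at this
    linear_combination (1 / 8 : ℚ) * this
  have hZ : ((∑ k ∈ range n, (10 * k + 3) * (2 * k).choose k ^ 2 * (3 * k).choose k *
      8 ^ (n - 1 - k) : ℕ) : ℤ)
      = ((n * (2 * n + 1) * (2 * n).choose n : ℕ) : ℤ) * ∑ k ∈ range n, (-1) ^ k * (t k : ℤ) := by
    have := hS.trans hR
    exact_mod_cast this
  have hd : ((n * (2 * n + 1) * (2 * n).choose n : ℕ) : ℤ) ∣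
      ((∑ k ∈ range n, (10 * k + 3) * (2 * k).choose k ^ 2 * (3 * k).choose k *
      8 ^ (n - 1 - k) : ℕ) : ℤ) := ⟨_, hZ⟩
  exact_mod_cast hd

end Pool.Agent.Results.MP_1cf91b_nt.Integrality
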